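import Pool.Agent.Helper8.UN.Stmts

set_option autoImplicit false

open Finset

namespace Pool.Agent.Helper8.UN

theorem bkd_mf {α : Type} (p : α → Prop) (dp : DecidablePred p) (s : Finset α) (a : α) :
    a ∈ @Finset.filter α p dp s ↔ a ∈ s ∧ p a := Finset.mem_filter

theorem bkd_det {n : ℕ} (E : Finset (Finset (Fin n))) (hT : Two E) (f : Fin n → ℕ) (y : Fin n)
    (i j : ℕ) (e : Finset (Fin n)) (he : e ∈ E) (hi : ∀ u ∈ e, u ≠ y → f u = i)
    (hj : ∀ u ∈ e, u ≠ y → f u = j) : i = j := by
  have h1 : 1 < e.card := hT e he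
  obtain ⟨u, hu, huy⟩ := exists_mem_ne h1 y
  rw [← hi u hu huy, hj u hu huy]

theorem st_BKD : ST_BKD := by
  classical
  intro n D0 r E hT hr hDeg W k f y hy
  unfold bk
  rcases Nat.eq_zero_or_pos n with hn | hn
  · subst hn
    exact y.elim0
  -- choose the edges
  have hch : ∀ i, Blk E W f y i → ∃ e ∈ E, e ⊆ W ∧ y ∈ e ∧ ∀ u ∈ e, u ≠ y → f u = i :=
    fun i h => h
  choose! g hg1 hg2 hg3 hg4 using hch
  have hsplit : (Finset.Icc 1 k).filter (fun i => Blk E W f y i) ⊆
      ((Finset.Icc 1 k).filter (fun i => Blk E W f y i ∧ (g i).card < r)) ∪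
        ((Finset.Icc 1 k).filter (fun i => Blk E W f y i ∧ r ≤ (g i).card)) := by
    intro i hi
    rw [bkd_mf] at hi
    rw [mem_union, bkd_mf, bkd_mf]
    rcases lt_or_ge (g i).card r with h | h
    · exact Or.inl ⟨hi.1, hi.2, h⟩
    · exact Or.inr ⟨hi.1, hi.2, h⟩
  have hA : ((Finset.Icc 1 k).filter (fun i => Blk E W f y i ∧ (g i).card < r)).card ≤ D0 := by
    refine le_trans ?_ (hDeg y)
    refine Finset.card_le_card_of_injOn g ?_ ?_
    · intro i hi
      rw [mem_coe, bkd_mf] at hi
      rw [mem_coe, bkd_mf]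
      exact ⟨hg1 i hi.2.1, hg3 i hi.2.1, hi.2.2⟩
    · intro i hi j hj hij
      rw [mem_coe, bkd_mf] at hi hj
      refine bkd_det E hT f y i j (g i) (hg1 i hi.2.1) (hg4 i hi.2.1) ?_
      rw [hij]
      exact hg4 j hj.2.1
  have hB : ((Finset.Icc 1 k).filter (fun i => Blk E W f y i ∧ r ≤ (g i).card)).card ≤
      n / (r - 1) := by
    rw [Nat.le_div_iff_mul_le (by omega)]
    have h1 : ∀ i ∈ (Finset.Icc 1 k).filter (fun i => Blk E W f y i ∧ r ≤ (g i).card),
        r - 1 ≤ (Finset.univ.filter (fun v : Fin n => f v = i)).card := by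
      intro i hi
      rw [bkd_mf] at hi
      have h2 : ((g i).erase y).card = (g i).card - 1 := card_erase_of_mem (hg3 i hi.2.1)
      have h3 : (g i).erase y ⊆ Finset.univ.filter (fun v : Fin n => f v = i) := by
        intro u hu
        rw [mem_erase] at hu
        rw [bkd_mf]
        exact ⟨mem_univ _, hg4 i hi.2.1 u hu.2 hu.1⟩
      have h4 := card_le_card h3
      have h5 := hi.2.2
      omega
    have h2 := Finset.sum_le_sum h1
    rw [sum_const, smul_eq_mul] at h2
    refine le_trans h2 ?_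
    have h3 : ∑ i ∈ (Finset.Icc 1 k).filter (fun i => Blk E W f y i ∧ r ≤ (g i).card),
        (Finset.univ.filter (fun v : Fin n => f v = i)).card =
        (((Finset.Icc 1 k).filter (fun i => Blk E W f y i ∧ r ≤ (g i).card)).biUnion
          (fun i => Finset.univ.filter (fun v : Fin n => f v = i))).card := by
      rw [card_biUnion]
      intro i _ j _ hij
      rw [Function.onFun, disjoint_left]
      intro v hv hv2
      rw [bkd_mf] at hv hv2
      exact hij (by rw [← hv.2, hv2.2])
    rw [h3]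
    refine le_trans (card_le_univ _) ?_
    rw [Fintype.card_fin]
  have h3 := card_le_card hsplit
  have h4 := card_union_le
    ((Finset.Icc 1 k).filter (fun i => Blk E W f y i ∧ (g i).card < r))
    ((Finset.Icc 1 k).filter (fun i => Blk E W f y i ∧ r ≤ (g i).card))
  unfold DD
  refine le_trans ?_ (add_le_add hA hB)
  refine le_trans ?_ h4
  exact h3

end Pool.Agent.Helper8.UN
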